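import Pool.Agent.N24.LM.Simple

/-!
# Invariant weights from averages
-/

set_option autoImplicit false

namespace Pool.Agent.N24.LM

open Module

section

variable {K A : Type} [Field K] [Ring A] [Algebra K A]

/-- the average of the normalized ranks along the orbit -/
noncomputable def av (α : A ≃ₐ[K] A) (B' : Subalgebra K A) (m : ℕ) (x : A) : ℝ :=
  (∑ i ∈ Finset.range m, nr B' ((α ^ i) x)) / m

theorem av_nonneg (α : A ≃ₐ[K] A) (B' : Subalgebra K A) (m : ℕ) (x : A) : 0 ≤ av α B' m x :=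
  div_nonneg (Finset.sum_nonneg fun _ _ => nr_nonneg _ _) (Nat.cast_nonneg _)

theorem av_le_one (α : A ≃ₐ[K] A) (B' : Subalgebra K A) [FiniteDimensional K B'] (m : ℕ) (x : A) :
    av α B' m x ≤ 1 := by
  apply div_le_one_of_le₀ _ (Nat.cast_nonneg _)
  refine (Finset.sum_le_sum fun i _ => nr_le_one B' _).trans ?_
  simp

theorem pow_succ_apply (α : A ≃ₐ[K] A) (i : ℕ) (x : A) : (α ^ i) (α x) = (α ^ (i + 1)) x := by
  rw [pow_succ]
  rfl

theorem av_shift (α : A ≃ₐ[K] A) (B' : Subalgebra K A) [FiniteDimensional K B'] (m : ℕ) (x : A) :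
    |av α B' m x - av α B' m (α x)| ≤ 1 / m := by
  unfold av
  rw [← sub_div, abs_div, Nat.abs_cast]
  apply div_le_div_of_nonneg_right _ (Nat.cast_nonneg _)
  simp_rw [pow_succ_apply]
  rw [← Finset.sum_sub_distrib, abs_le]
  have h1 : ∑ i ∈ Finset.range m, (nr B' ((α ^ i) x) - nr B' ((α ^ (i + 1)) x)) =
      nr B' ((α ^ 0) x) - nr B' ((α ^ m) x) :=
    Finset.sum_range_sub' (fun i => nr B' ((α ^ i) x)) m
  rw [h1]
  have h2 := nr_nonneg B' ((α ^ 0) x)
  have h3 := nr_nonneg B' ((α ^ m) x)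
  have h4 := nr_le_one B' ((α ^ 0) x)
  have h5 := nr_le_one B' ((α ^ m) x)
  constructor <;> linarith

theorem av_dim (α : A ≃ₐ[K] A) (B B' : Subalgebra K A) [FiniteDimensional K B'] (m : ℕ)
    (h : ∀ b ∈ B, ∀ i ≤ m, (α ^ i) b ∈ B') : IsDim (fun b : B => av α B' m (b : A)) where
  nonneg e _ := av_nonneg α B' m _
  add e f he hf hef hfe := by
    show av α B' m ((e : A) + f) = av α B' m e + av α B' m f
    unfold av
    rw [← add_div, ← Finset.sum_add_distrib]
    congr 1
    refine Finset.sum_congr rfl fun i hi => ?_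
    have hi' : i ≤ m := (Finset.mem_range.1 hi).le
    rw [map_add]
    refine nr_add B' (h _ e.2 i hi') (h _ f.2 i hi') ?_ ?_ ?_ ?_
    · exact IsIdempotentElem.map (congrArg Subtype.val he) (α ^ i)
    · exact IsIdempotentElem.map (congrArg Subtype.val hf) (α ^ i)
    · rw [← map_mul]
      have h1 : (e : A) * f = 0 := congrArg Subtype.val hef
      rw [h1, map_zero]
    · rw [← map_mul]
      have h1 : (f : A) * e = 0 := congrArg Subtype.val hfe
      rw [h1, map_zero]
  swap x y hxy hyx := by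
    show av α B' m ((x : A) * y) = av α B' m ((y : A) * x)
    unfold av
    congr 1
    refine Finset.sum_congr rfl fun i hi => ?_
    have hi' : i ≤ m := (Finset.mem_range.1 hi).le
    rw [map_mul, map_mul]
    refine nr_swap B' (h _ x.2 i hi') (h _ y.2 i hi') ?_ ?_
    · rw [← map_mul]
      exact IsIdempotentElem.map (congrArg Subtype.val hxy) (α ^ i)
    · rw [← map_mul]
      exact IsIdempotentElem.map (congrArg Subtype.val hyx) (α ^ i)

theorem sum_shift (F : ℕ → ℝ) (hF : ∀ i, 0 ≤ F i) (m q : ℕ) (k : ℤ) (hk : |k| ≤ q) :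
    ∑ j ∈ Finset.Ico q (m - q), F ((j + k).toNat) ≤ ∑ i ∈ Finset.range m, F i := by
  have hk' := abs_le.1 hk
  have hinj : Set.InjOn (fun j : ℕ => ((j : ℤ) + k).toNat) (Finset.Ico q (m - q) : Set ℕ) := by
    intro a ha b hb hab
    have ha' := Finset.mem_Ico.1 (Finset.mem_coe.1 ha)
    have hb' := Finset.mem_Ico.1 (Finset.mem_coe.1 hb)
    have hab' : ((a : ℤ) + k).toNat = ((b : ℤ) + k).toNat := hab
    omega
  rw [← Finset.sum_image (f := F) hinj]
  apply Finset.sum_le_sum_of_subset_of_nonneg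
  · intro i hi
    obtain ⟨j, hj, rfl⟩ := Finset.mem_image.1 hi
    have hj' := Finset.mem_Ico.1 hj
    rw [Finset.mem_range]
    show ((j : ℤ) + k).toNat < m
    omega
  · intro i _ _
    exact hF i

theorem av_lower [Nontrivial A] (α : A ≃ₐ[K] A) (B' : Subalgebra K A) [FiniteDimensional K B']
    (m q : ℕ) (e : A) (he : ∀ i ≤ m, (α ^ i) e ∈ B') (L : List (A × ℤ × A))
    (hL : (L.map fun p => p.1 * (α ^ p.2.1) e * p.2.2).sum = 1)
    (hLq : ∀ p ∈ L, |p.2.1| ≤ q)
    (hLB : ∀ p ∈ L, ∀ i ≤ m, (α ^ i) p.1 ∈ B' ∧ (α ^ i) p.2.2 ∈ B') :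
    ((m : ℝ) - 2 * q) ≤ L.length * (m * av α B' m e) := by
  set F : ℕ → ℝ := fun i => nr B' ((α ^ i) e) with hF
  have hav : (m : ℝ) * av α B' m e = ∑ i ∈ Finset.range m, F i := by
    unfold av
    rcases Nat.eq_zero_or_pos m with h | h
    · rw [h]
      simp
    · have h1 : (m : ℝ) ≠ 0 := by exact_mod_cast h.ne'
      rw [mul_div_cancel₀ _ h1]
  have h1 : ∀ j ∈ Finset.Ico q (m - q), 1 ≤ (L.map fun p => F (((j : ℤ) + p.2.1).toNat)).sum := by
    intro j hj
    have hj' := Finset.mem_Ico.1 hj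
    have hpow : ∀ p ∈ L, (α ^ j) ((α ^ p.2.1) e) = (α ^ (((j : ℤ) + p.2.1).toNat)) e := by
      intro p hp
      have h2 := abs_le.1 (hLq p hp)
      rw [← AlgEquiv.mul_apply, ← zpow_natCast, ← zpow_add, ← zpow_natCast, Int.toNat_of_nonneg
        (by omega)]
    refine nr_list B' L (fun p => (α ^ j) p.1) (fun p => (α ^ (((j : ℤ) + p.2.1).toNat)) e)
      (fun p => (α ^ j) p.2.2) (fun p hp => (hLB p hp j (by omega)).1) ?_
      (fun p hp => (hLB p hp j (by omega)).2) ?_
    · intro p hp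
      have h2 := abs_le.1 (hLq p hp)
      exact he _ (by omega)
    · have h3 : (L.map fun p => (α ^ j) p.1 * (α ^ (((j : ℤ) + p.2.1).toNat)) e * (α ^ j) p.2.2).sum =
          (α ^ j) (L.map fun p => p.1 * (α ^ p.2.1) e * p.2.2).sum := by
        rw [map_list_sum, List.map_map]
        congr 1
        apply List.map_congr_left
        intro p hp
        rw [← hpow p hp]
        simp
      rw [h3, hL, map_one]
  have h2 : ((m : ℝ) - 2 * q) ≤ ∑ j ∈ Finset.Ico q (m - q), (1 : ℝ) := by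
    rw [Finset.sum_const, Nat.card_Ico, nsmul_eq_mul, mul_one]
    have h3 : ((m : ℝ)) ≤ (((m - q - q : ℕ) + 2 * q : ℕ) : ℝ) := by
      exact_mod_cast (by omega : m ≤ m - q - q + 2 * q)
    push_cast at h3 ⊢
    linarith
  have h4 : ∑ j ∈ Finset.Ico q (m - q), (L.map fun p => F (((j : ℤ) + p.2.1).toNat)).sum ≤
      L.length * ∑ i ∈ Finset.range m, F i := by
    have h5 : ∀ L' : List (A × ℤ × A), (∀ p ∈ L', |p.2.1| ≤ q) →
        ∑ j ∈ Finset.Ico q (m - q), (L'.map fun p => F (((j : ℤ) + p.2.1).toNat)).sum ≤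
          L'.length * ∑ i ∈ Finset.range m, F i := by
      intro L' hL'
      induction L' with
      | nil => simp
      | cons a L' ih =>
        simp_rw [List.map_cons, List.sum_cons]
        rw [Finset.sum_add_distrib, List.length_cons]
        have h6 := sum_shift F (fun i => nr_nonneg B' _) m q a.2.1 (hL' a List.mem_cons_self)
        have h7 := ih fun p hp => hL' p (List.mem_cons_of_mem a hp)
        push_cast
        linarith
    exact h5 L hLq
  rw [hav]
  exact h2.trans ((Finset.sum_le_sum h1).trans h4)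

/-- an algebra without invariant ideals has invariant weights -/
theorem weights_of_noInv (hA : LocallySemisimple K A) (α : A ≃ₐ[K] A)
    (hα : NoInvariantIdeal α) : HasWeights α := by
  intro B₀ B _ hBfd _ _ h₀ h₁
  have := hα.1
  obtain ⟨r, f, hf, hs⟩ := exists_min K (B := B)
  have hf0 : ∀ k, (f k : A) ≠ 0 := fun k h => (hf k).2.1 (Subtype.ext h)
  choose L hL using fun k => exists_list α hα (f k : A) (hf0 k)
  -- a bound for the exponents
  obtain ⟨q, hq⟩ : ∃ q : ℕ, ∀ k, ∀ p ∈ L k, |p.2.1| ≤ q := by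
    have hfin : (⋃ k, (fun p : A × ℤ × A => p.2.1.natAbs) '' {p | p ∈ L k}).Finite :=
      Set.finite_iUnion fun k => (List.finite_toSet (L k)).image _
    obtain ⟨q, hq⟩ := hfin.bddAbove
    refine ⟨q, fun k p hp => ?_⟩
    have h1 : p.2.1.natAbs ≤ q := hq (Set.mem_iUnion.2 ⟨k, p, hp, rfl⟩)
    rw [Int.abs_eq_natAbs]
    exact_mod_cast h1
  -- large subalgebras
  have hB' : ∀ m : ℕ, ∃ B' : Subalgebra K A, FiniteDimensional K B' ∧
      (∀ b ∈ B, ∀ i ≤ m, (α ^ i) b ∈ B') ∧
      ∀ k, ∀ p ∈ L k, ∀ i ≤ m, (α ^ i) p.1 ∈ B' ∧ (α ^ i) p.2.2 ∈ B' := by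
    intro m
    obtain ⟨F, hF, hspan⟩ := Submodule.fg_def.1 (Module.Finite.iff_fg.1 hBfd : B.toSubmodule.FG)
    have hfin1 : (⋃ i ∈ Finset.range (m + 1), (fun x => (α ^ i) x) '' F).Finite :=
      Set.Finite.biUnion (Finset.finite_toSet _) fun i _ => hF.image _
    have hfin2 : (⋃ k, ⋃ i ∈ Finset.range (m + 1), (fun p : A × ℤ × A => (α ^ i) p.1) ''
        {p | p ∈ L k}).Finite := Set.finite_iUnion fun k => Set.Finite.biUnion
          (Finset.finite_toSet _) fun i _ => (List.finite_toSet (L k)).image _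
    have hfin3 : (⋃ k, ⋃ i ∈ Finset.range (m + 1), (fun p : A × ℤ × A => (α ^ i) p.2.2) ''
        {p | p ∈ L k}).Finite := Set.finite_iUnion fun k => Set.Finite.biUnion
          (Finset.finite_toSet _) fun i _ => (List.finite_toSet (L k)).image _
    obtain ⟨B', hB', h3, -⟩ := hA _ ((hfin1.union hfin2).union hfin3)
    refine ⟨B', h3, ?_, ?_⟩
    · intro b hb i hi
      have hle : Submodule.span K F ≤
          B'.toSubmodule.comap ((α ^ i : A ≃ₐ[K] A) : A →ₐ[K] A).toLinearMap := by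
        refine Submodule.span_le.2 fun x hx => hB' (Or.inl (Or.inl ?_))
        refine Set.mem_iUnion₂.2 ⟨i, Finset.mem_range.2 (by omega), x, hx, rfl⟩
      rw [hspan] at hle
      exact hle hb
    · intro k p hp i hi
      refine ⟨hB' (Or.inl (Or.inr ?_)), hB' (Or.inr ?_)⟩
      · exact Set.mem_iUnion.2 ⟨k, Set.mem_iUnion₂.2 ⟨i, Finset.mem_range.2 (by omega), p, hp,
          rfl⟩⟩
      · exact Set.mem_iUnion.2 ⟨k, Set.mem_iUnion₂.2 ⟨i, Finset.mem_range.2 (by omega), p, hp,
          rfl⟩⟩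
  choose B' hfd hBB hLL using hB'
  have hDpos : ∀ k, 0 < ((∑ l, rk K (LI (f l)) (f k) : ℕ) : ℝ) := by
    intro k
    have h1 : 0 < ∑ l, rk K (LI (f l)) (f k) := by
      rw [Nat.pos_iff_ne_zero]
      intro h0
      have h2 := LI_zero (Finset.sum_eq_zero_iff.1 h0 k (Finset.mem_univ k))
      rw [(hf k).1.eq] at h2
      exact (hf k).2.1 h2
    exact_mod_cast h1
  set D : Fin r → ℝ := fun k => ((∑ l, rk K (LI (f l)) (f k) : ℕ) : ℝ) with hD
  -- the weights of the averages
  let c : ℕ → Fin r → ℝ := fun m k => av α (B' m) m (f k : A) / D k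
  have hLlen : ∀ k, 0 < (L k).length := by
    intro k
    rw [List.length_pos_iff]
    intro h
    have h1 := hL k
    rw [h] at h1
    exact zero_ne_one h1
  have hlow : ∀ k, ∀ m, 4 * q + 1 ≤ m → 1 / (2 * (L k).length) / D k ≤ c m k := by
    intro k m hm
    have h1 := av_lower α (B' m) m q (f k : A) (hBB m _ (f k).2) (L k) (hL k) (hq k) (hLL m k)
    have h2 : (0 : ℝ) < m := by exact_mod_cast (by omega : 0 < m)
    have h3 : (0 : ℝ) < (L k).length := by exact_mod_cast hLlen k
    apply div_le_div_of_nonneg_right _ (hDpos k).le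
    rw [div_le_iff₀ (by positivity)]
    have h4 : (4 : ℝ) * q ≤ m := by
      have : ((4 * q : ℕ) : ℝ) ≤ m := by exact_mod_cast (by omega : 4 * q ≤ m)
      push_cast at this
      exact this
    have h5 : (m : ℝ) / 2 ≤ (L k).length * (m * av α (B' m) m (f k : A)) := by linarith
    have h6 : (m : ℝ) * 1 ≤ m * (av α (B' m) m (f k : A) * (2 * (L k).length)) := by
      nlinarith
    exact le_of_mul_le_mul_left h6 h2
  have hupp : ∀ k m, c m k ≤ 1 / D k := fun k m =>
    div_le_div_of_nonneg_right (av_le_one α _ _ _) (hDpos k).le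
  -- a convergent subsequence
  have hcpt : IsCompact (Set.pi Set.univ fun k : Fin r =>
      Set.Icc (1 / (2 * ((L k).length : ℝ)) / D k) (1 / D k)) :=
    isCompact_univ_pi fun k => isCompact_Icc
  obtain ⟨c', hc', φ, hφ, hlim⟩ := hcpt.tendsto_subseq (x := fun m => c (m + (4 * q + 1)))
    (fun m k _ => ⟨hlow k _ (by omega), hupp k _⟩)
  refine ⟨r, f, c', hs, fun k => ?_, fun e he => ?_⟩
  · have h1 := (hc' k trivial).1
    have h3 : (0 : ℝ) < (L k).length := by exact_mod_cast hLlen k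
    have h4 : 0 < 1 / (2 * ((L k).length : ℝ)) / D k := div_pos (by positivity) (hDpos k)
    linarith
  · -- the difference tends to zero
    set e₀ : B := Subalgebra.inclusion h₀ e with he₀
    set e₁ : B := rs α B₀ B h₁ e with he₁
    have hval : ∀ m, |∑ k, c m k * rk K (LI (f k)) e₀ - ∑ k, c m k * rk K (LI (f k)) e₁| ≤
        1 / m := by
      intro m
      have h5 := dim_eq (K := K) f hf hs (av_dim α B (B' m) m (hBB m))
      have h6 : ∑ k, c m k * rk K (LI (f k)) e₀ = av α (B' m) m (e : A) :=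
        (h5 e₀ (he.map _)).symm
      have h7 : ∑ k, c m k * rk K (LI (f k)) e₁ = av α (B' m) m (α e) :=
        (h5 e₁ (he.map _)).symm
      rw [h6, h7]
      exact av_shift α (B' m) m e
    have hcont : Filter.Tendsto (fun n => ∑ k, c (φ n + (4 * q + 1)) k * rk K (LI (f k)) e₀ -
        ∑ k, c (φ n + (4 * q + 1)) k * rk K (LI (f k)) e₁) Filter.atTop
        (nhds (∑ k, c' k * rk K (LI (f k)) e₀ - ∑ k, c' k * rk K (LI (f k)) e₁)) := by
      have hk : ∀ k, Filter.Tendsto (fun n => c (φ n + (4 * q + 1)) k) Filter.atTop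
          (nhds (c' k)) := fun k => (tendsto_pi_nhds.1 hlim) k
      exact (tendsto_finsetSum _ fun k _ => (hk k).mul_const _).sub
        (tendsto_finsetSum _ fun k _ => (hk k).mul_const _)
    have hzero : Filter.Tendsto (fun n => ∑ k, c (φ n + (4 * q + 1)) k * rk K (LI (f k)) e₀ -
        ∑ k, c (φ n + (4 * q + 1)) k * rk K (LI (f k)) e₁) Filter.atTop (nhds 0) := by
      rw [tendsto_zero_iff_abs_tendsto_zero]
      have h8 : Filter.Tendsto (fun n => (1 : ℝ) / ((φ n + (4 * q + 1) : ℕ) : ℝ)) Filter.atTop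
          (nhds 0) := by
        have h9 : Filter.Tendsto (fun n => φ n + (4 * q + 1)) Filter.atTop Filter.atTop :=
          (Filter.tendsto_add_atTop_nat (4 * q + 1)).comp hφ.tendsto_atTop
        exact tendsto_one_div_atTop_nhds_zero_nat.comp h9
      exact squeeze_zero (fun n => abs_nonneg _) (fun n => hval _) h8
    have h10 := tendsto_nhds_unique hcont hzero
    linarith

end

end Pool.Agent.N24.LM
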