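import Pool.Agent.N24.LM.Iso

/-!
# Dimension functions on finite-dimensional semisimple algebras
-/

set_option autoImplicit false

namespace Pool.Agent.N24.LM

open Module

/-- A dimension function on the idempotents of a ring: nonnegative, additive on orthogonal
idempotents and with equal values on the equivalent idempotents `x y` and `y x`. -/
structure IsDim {A : Type} [Ring A] (δ : A → ℝ) : Prop where
  nonneg : ∀ e : A, IsIdempotentElem e → 0 ≤ δ e
  add : ∀ e f : A, IsIdempotentElem e → IsIdempotentElem f → e * f = 0 → f * e = 0 →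
    δ (e + f) = δ e + δ f
  swap : ∀ x y : A, IsIdempotentElem (x * y) → IsIdempotentElem (y * x) → δ (x * y) = δ (y * x)

theorem IsDim.zero {A : Type} [Ring A] {δ : A → ℝ} (h : IsDim δ) : δ 0 = 0 := by
  have h1 := h.add 0 0 IsIdempotentElem.zero IsIdempotentElem.zero (mul_zero 0) (mul_zero 0)
  rw [add_zero] at h1
  linarith

/-- a minimal idempotent: the left ideal generated by it is simple -/
def IsMin {B : Type} [Ring B] (f : B) : Prop :=
  IsIdempotentElem f ∧ f ≠ 0 ∧ ∀ x, x * f ≠ 0 → ∃ y, y * (x * f) = f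

section

variable (K : Type) {B : Type} [Field K] [Ring B] [Algebra K B]

theorem ind [IsSemisimpleRing B] [FiniteDimensional K B] (P : B → Prop) (h0 : P 0)
    (h1 : ∀ f, IsMin f → P f)
    (h2 : ∀ e f, IsIdempotentElem e → IsIdempotentElem f → e * f = 0 → f * e = 0 → P e → P f →
      P (e + f)) : ∀ e, IsIdempotentElem e → P e := by
  have key : ∀ (n : ℕ) (e : B), IsIdempotentElem e → rk K B e = n → P e := by
    intro n
    induction n using Nat.strong_induction_on with
    | _ n ih =>
      intro e he hn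
      by_cases he0 : e = 0
      · rw [he0]
        exact h0
      by_cases hm : IsMin e
      · exact h1 e hm
      obtain ⟨x, hx, hy⟩ : ∃ x, x * e ≠ 0 ∧ ∀ y, y * (x * e) ≠ e := by
        by_contra h
        push Not at h
        exact hm ⟨he, he0, h⟩
      obtain ⟨k, hk, hI⟩ := IsSemisimpleRing.ideal_eq_span_idempotent (Ideal.span {x * e})
      obtain ⟨c, hc⟩ : ∃ c, c * (x * e) = k := by
        rw [← Ideal.mem_span_singleton', hI]
        exact Ideal.mem_span_singleton_self k
      obtain ⟨d, hd⟩ : ∃ d, d * k = x * e := by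
        rw [← Ideal.mem_span_singleton', ← hI]
        exact Ideal.mem_span_singleton_self _
      have hke : k * e = k := by
        rw [← hc, mul_assoc, mul_assoc, he.eq]
      have hk0 : k ≠ 0 := by
        intro h
        rw [h, mul_zero] at hd
        exact hx hd.symm
      have hek : ∀ y, y * k ≠ e := by
        intro y h
        apply hy (y * c)
        rw [mul_assoc, hc, h]
      set f := e * k with hf
      have hff : f * f = f := by
        calc e * k * (e * k) = e * (k * e) * k := by simp only [mul_assoc]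
          _ = e * (k * k) := by rw [hke, mul_assoc]
          _ = e * k := by rw [hk.eq]
      have hfe : f * e = f := by rw [hf, mul_assoc, hke]
      have hef : e * f = f := by rw [hf, ← mul_assoc, he.eq]
      have hf0 : f ≠ 0 := by
        intro h
        apply hk0
        calc k = k * k := hk.eq.symm
          _ = k * e * k := by rw [hke]
          _ = k * f := by rw [hf, mul_assoc]
          _ = 0 := by rw [h, mul_zero]
      have hfe' : e - f ≠ 0 := by
        intro h
        exact hek e (sub_eq_zero.1 h).symm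
      have i1 : IsIdempotentElem f := hff
      have i2 : IsIdempotentElem (e - f) := by
        show (e - f) * (e - f) = e - f
        rw [sub_mul, mul_sub, mul_sub, he.eq, hef, hfe, hff, sub_self, sub_zero]
      have o1 : f * (e - f) = 0 := by rw [mul_sub, hfe, hff, sub_self]
      have o2 : (e - f) * f = 0 := by rw [sub_mul, hef, hff, sub_self]
      have hsum : f + (e - f) = e := by abel
      have hrk := rk_add K (V := B) f (e - f) i1 i2 o1 o2
      rw [hsum, hn] at hrk
      have p1 : 0 < rk K B f := by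
        rw [Nat.pos_iff_ne_zero]
        intro h
        exact hf0 (by simpa using (rk_eq_zero K).1 h (1 : B))
      have p2 : 0 < rk K B (e - f) := by
        rw [Nat.pos_iff_ne_zero]
        intro h
        exact hfe' (by simpa using (rk_eq_zero K).1 h (1 : B))
      rw [← hsum]
      exact h2 f (e - f) i1 i2 o1 o2 (ih _ (by omega) f i1 rfl) (ih _ (by omega) _ i2 rfl)
  exact fun e he => key _ e he rfl

theorem equiv_of {e f b : B} (he : IsMin e) (hf : IsMin f) (h : e * b * f ≠ 0) :
    ∃ x y, x * y = e ∧ y * x = f := by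
  obtain ⟨y₀, hy₀⟩ := hf.2.2 (e * b) h
  set x := e * b * f with hx
  have hex : e * x = x := by rw [hx, ← mul_assoc, ← mul_assoc, he.1.eq]
  have hxf : x * f = x := by rw [hx, mul_assoc, hf.1.eq]
  have hyx : f * y₀ * e * x = f := by rw [mul_assoc, hex, mul_assoc, hy₀, hf.1.eq]
  have hxy : x * (f * y₀ * e) = x * y₀ * e := by
    rw [← mul_assoc, ← mul_assoc, hxf]
  have h0 : x * y₀ * e ≠ 0 := by
    intro h1
    apply hf.2.1
    calc f = f * f := hf.1.eq.symm
      _ = (f * y₀ * e * x) * (f * y₀ * e * x) := by rw [hyx]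
      _ = f * y₀ * e * (x * (f * y₀ * e)) * x := by simp only [mul_assoc]
      _ = 0 := by rw [hxy, h1, mul_zero, zero_mul]
  obtain ⟨z, hz⟩ := he.2.2 (x * y₀) h0
  rw [← hxy] at hz
  refine ⟨x, f * y₀ * e, ?_, hyx⟩
  have hid : x * (f * y₀ * e) * (x * (f * y₀ * e)) = x * (f * y₀ * e) := by
    calc x * (f * y₀ * e) * (x * (f * y₀ * e)) = x * (f * y₀ * e * x) * (f * y₀ * e) := by
          simp only [mul_assoc]
      _ = x * (f * y₀ * e) := by rw [hyx, hxf]
  calc x * (f * y₀ * e) = e * (x * (f * y₀ * e)) := by rw [← mul_assoc e, hex]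
    _ = z * (x * (f * y₀ * e)) * (x * (f * y₀ * e)) := by rw [hz]
    _ = e := by rw [mul_assoc, hid, hz]

theorem exists_min [IsSemisimpleRing B] [FiniteDimensional K B] :
    ∃ (r : ℕ) (f : Fin r → B), (∀ k, IsMin (f k)) ∧ ∑ k, f k = 1 := by
  have h1 : ∀ e : B, IsIdempotentElem e → ∃ L : List B, (∀ f ∈ L, IsMin f) ∧ L.sum = e := by
    refine ind K _ ⟨[], by simp, rfl⟩ (fun f hf => ⟨[f], by simpa using hf, by simp⟩) ?_
    rintro e f _ _ _ _ ⟨L, hL, rfl⟩ ⟨L', hL', rfl⟩
    refine ⟨L ++ L', ?_, List.sum_append⟩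
    intro x hx
    rcases List.mem_append.1 hx with h | h
    · exact hL x h
    · exact hL' x h
  obtain ⟨L, hL, hs⟩ := h1 1 IsIdempotentElem.one
  refine ⟨L.length, L.get, fun k => hL _ (List.get_mem L k), ?_⟩
  rw [← hs]
  conv_rhs => rw [← List.ofFn_get L]
  rw [List.sum_ofFn]

/-- the left ideal of an element -/
abbrev LI (f : B) : Type := ↥(Ideal.span {f} : Ideal B)

variable {K} in
theorem LI_ne {e f : B} [FiniteDimensional K B] (h : rk K (LI f) e ≠ 0) : ∃ b, e * b * f ≠ 0 := by
  have := fd_sub K (Ideal.span {f} : Ideal B)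
  by_contra h1
  push Not at h1
  apply h
  rw [rk_eq_zero]
  rintro ⟨v, hv⟩
  obtain ⟨b, rfl⟩ := Ideal.mem_span_singleton'.1 hv
  apply Subtype.ext
  show e * (b * f) = 0
  rw [← mul_assoc, h1]

variable {K} in
theorem LI_zero {b f : B} [FiniteDimensional K B] (h : rk K (LI f) b = 0) : b * f = 0 := by
  have := fd_sub K (Ideal.span {f} : Ideal B)
  exact congrArg Subtype.val ((rk_eq_zero K).1 h ⟨f, Ideal.mem_span_singleton_self f⟩)

variable {K} in
/-- **a dimension function is a combination of ranks** -/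
theorem dim_eq [IsSemisimpleRing B] [FiniteDimensional K B] {r : ℕ} (f : Fin r → B)
    (hf : ∀ k, IsMin (f k)) (hs : ∑ k, f k = 1) {δ : B → ℝ} (hδ : IsDim δ) :
    ∀ e, IsIdempotentElem e → δ e =
      ∑ k, (δ (f k) / ((∑ l, rk K (LI (f l)) (f k) : ℕ) : ℝ)) * rk K (LI (f k)) e := by
  have hfd : ∀ k, FiniteDimensional K (LI (f k)) := fun k => fd_sub K _
  refine ind K _ ?_ ?_ ?_
  · rw [hδ.zero]
    symm
    apply Finset.sum_eq_zero
    intro k _
    have h1 : rk K (LI (f k)) (0 : B) = 0 := (rk_eq_zero K).2 fun v => zero_smul _ _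
    rw [h1]
    simp
  · intro e he
    have hD : (∑ l, rk K (LI (f l)) e) ≠ 0 := by
      intro h0
      apply he.2.1
      rw [← mul_one e, ← hs, Finset.mul_sum]
      apply Finset.sum_eq_zero
      intro k hk
      exact LI_zero (Finset.sum_eq_zero_iff.1 h0 k hk)
    have h1 : ∀ k, (δ (f k) / ((∑ l, rk K (LI (f l)) (f k) : ℕ) : ℝ)) * rk K (LI (f k)) e =
        (δ e / ((∑ l, rk K (LI (f l)) e : ℕ) : ℝ)) * rk K (LI (f k)) e := by
      intro k
      by_cases h0 : rk K (LI (f k)) e = 0
      · rw [h0]
        simp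
      · obtain ⟨b, hb⟩ := LI_ne h0
        obtain ⟨x, y, hxy, hyx⟩ := equiv_of he (hf k) hb
        have i1 : IsIdempotentElem (x * y) := hxy ▸ he.1
        have i2 : IsIdempotentElem (y * x) := hyx ▸ (hf k).1
        have e1 : δ e = δ (f k) := by
          rw [← hxy, ← hyx]
          exact hδ.swap x y i1 i2
        have e2 : ∀ l, rk K (LI (f l)) (f k) = rk K (LI (f l)) e := by
          intro l
          rw [← hxy, ← hyx]
          exact (rk_swap K x y i1 i2).symm
        rw [e1]
        simp_rw [e2]
    rw [Finset.sum_congr rfl fun k _ => h1 k, ← Finset.mul_sum]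
    have h2 : ((∑ l, rk K (LI (f l)) e : ℕ) : ℝ) ≠ 0 := by exact_mod_cast hD
    rw [Nat.cast_sum] at h2 ⊢
    rw [div_mul_cancel₀ _ h2]
  · intro e e' he he' h1 h2 ih ih'
    rw [hδ.add e e' he he' h1 h2, ih, ih', ← Finset.sum_add_distrib]
    refine Finset.sum_congr rfl fun k _ => ?_
    rw [rk_add K e e' he he' h1 h2]
    push_cast
    ring

end

end Pool.Agent.N24.LM
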