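import Pool.Agent.N24.LM.Avg

/-!
# Algebras with invariant dimension functions on an ideal
-/

set_option autoImplicit false

namespace Pool.Agent.N24.LM

open Module Pool.Agent.Y110.FJ

/-- A dimension function on the idempotents of an ideal `I`: nonnegative, additive on orthogonal
idempotents and with equal values on the equivalent idempotents `x y` and `y x`. -/
structure IsDimOn {A : Type} [Ring A] (I : TwoSidedIdeal A) (δ : A → ℝ) : Prop where
  nonneg : ∀ e ∈ I, IsIdempotentElem e → 0 ≤ δ e
  add : ∀ e ∈ I, ∀ f ∈ I, IsIdempotentElem e → IsIdempotentElem f → e * f = 0 → f * e = 0 →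
    δ (e + f) = δ e + δ f
  swap : ∀ x y : A, IsIdempotentElem (x * y) → IsIdempotentElem (y * x) → x * y ∈ I → y * x ∈ I →
    δ (x * y) = δ (y * x)

/-- The algebra is spanned by `1` and an ideal `I` invariant under `α`, and every nonzero idempotent
in `I` has a positive value under a dimension function on `I` which is invariant under `α`. -/
def HasInvariantDimensions {K A : Type} [Field K] [Ring A] [Algebra K A] (α : A ≃ₐ[K] A) : Prop :=
  ∃ I : TwoSidedIdeal A, (∀ x, x ∈ I ↔ α x ∈ I) ∧ (∀ x : A, ∃ k : K, x - algebraMap K A k ∈ I) ∧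
    ∀ e ∈ I, IsIdempotentElem e → e ≠ 0 → ∃ δ : A → ℝ, IsDimOn I δ ∧
      (∀ x ∈ I, IsIdempotentElem x → δ (α x) = δ x) ∧ 0 < δ e

section

variable {K A : Type} [Field K] [Ring A] [Algebra K A]

theorem mem_or_of_idem (I : TwoSidedIdeal A) (hI : ∀ x : A, ∃ k : K, x - algebraMap K A k ∈ I)
    (e : A) (he : IsIdempotentElem e) : e ∈ I ∨ 1 - e ∈ I := by
  obtain ⟨k, hk⟩ := hI e
  by_cases h0 : k = 0
  · left
    rw [h0, map_zero, sub_zero] at hk
    exact hk
  by_cases h1 : k = 1
  · right
    rw [h1, map_one] at hk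
    have h2 := I.neg_mem hk
    rwa [neg_sub] at h2
  · left
    have h2 : (e - algebraMap K A k) * (e - algebraMap K A (1 - k)) =
        algebraMap K A (k * (1 - k)) := by
      have h3 : e * algebraMap K A k = algebraMap K A k * e := (Algebra.commutes k e).symm
      rw [map_mul, map_sub, map_one, sub_mul, mul_sub, mul_sub, mul_sub, mul_sub, he.eq,
        h3, mul_one, mul_one]
      abel
    have h3 : algebraMap K A (k * (1 - k)) ∈ I := by
      have h4 := I.mul_mem_right _ (e - algebraMap K A (1 - k)) hk
      rwa [h2] at h4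
    have h5 : k * (1 - k) ≠ 0 := mul_ne_zero h0 (sub_ne_zero.2 (Ne.symm h1))
    have h6 := I.mul_mem_left (algebraMap K A (k * (1 - k))⁻¹) _ h3
    rw [← map_mul, inv_mul_cancel₀ h5, map_one] at h6
    have h7 := I.mul_mem_left e _ h6
    rwa [mul_one] at h7

theorem weights_of_ideal (α : A ≃ₐ[K] A) (h : HasInvariantDimensions α) : HasWeights α := by
  classical
  obtain ⟨I, hαI, hIK, hI⟩ := h
  intro B₀ B _ _ _ _ h₀ h₁
  obtain ⟨r, f, hf, hs⟩ := exists_min K (B := B)
  have hfi : ∀ k, IsIdempotentElem (f k : A) := fun k => congrArg Subtype.val (hf k).1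
  have hf0 : ∀ k, (f k : A) ≠ 0 := fun k h => (hf k).2.1 (Subtype.ext h)
  -- one dimension function for each minimal idempotent in `I`
  have hex : ∀ k, ∃ δ : A → ℝ, IsDimOn I δ ∧ (∀ x ∈ I, IsIdempotentElem x → δ (α x) = δ x) ∧
      ((f k : A) ∈ I → 0 < δ (f k)) := by
    intro k
    by_cases hk : (f k : A) ∈ I
    · obtain ⟨δ, h1, h2, h3⟩ := hI _ hk (hfi k) (hf0 k)
      exact ⟨δ, h1, h2, fun _ => h3⟩
    · exact ⟨fun _ => 0, ⟨fun _ _ _ => le_rfl, fun _ _ _ _ _ _ _ _ => (add_zero _).symm,
        fun _ _ _ _ _ _ => rfl⟩, fun _ _ _ => rfl, fun h => absurd h hk⟩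
  choose δ hδ hα hpos using hex
  have hD : ∀ k, 0 < ((∑ l, rk K (LI (f l)) (f k) : ℕ) : ℝ) := by
    intro k
    have h1 : 0 < ∑ l, rk K (LI (f l)) (f k) := by
      rw [Nat.pos_iff_ne_zero]
      intro h0
      have h2 := LI_zero (Finset.sum_eq_zero_iff.1 h0 k (Finset.mem_univ k))
      rw [(hf k).1.eq] at h2
      exact (hf k).2.1 h2
    exact_mod_cast h1
  let c : Fin r → ℝ := fun k => if (f k : A) ∈ I then
    (∑ j, δ j (f k)) / ((∑ l, rk K (LI (f l)) (f k) : ℕ) : ℝ) else 1
  have key : ∀ b : B, IsIdempotentElem b → (b : A) ∈ I →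
      ∑ k, c k * rk K (LI (f k)) b = ∑ j, δ j (b : A) := by
    refine ind K _ ?_ ?_ ?_
    · intro _
      have h1 : ∀ j, δ j ((0 : B) : A) = 0 := by
        intro j
        have h2 := (hδ j).add 0 I.zero_mem 0 I.zero_mem IsIdempotentElem.zero
          IsIdempotentElem.zero (mul_zero 0) (mul_zero 0)
        rw [add_zero] at h2
        show δ j 0 = 0
        linarith
      simp_rw [h1]
      rw [Finset.sum_const_zero]
      apply Finset.sum_eq_zero
      intro k _
      rw [rk_zero]
      simp
    · intro e he heI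
      have hDe : (∑ l, rk K (LI (f l)) e) ≠ 0 := by
        intro h0
        apply he.2.1
        rw [← mul_one e, ← hs, Finset.mul_sum]
        apply Finset.sum_eq_zero
        intro k hk
        exact LI_zero (Finset.sum_eq_zero_iff.1 h0 k hk)
      have h1 : ∀ k, c k * rk K (LI (f k)) e =
          ((∑ j, δ j (e : A)) / ((∑ l, rk K (LI (f l)) e : ℕ) : ℝ)) * rk K (LI (f k)) e := by
        intro k
        by_cases h0 : rk K (LI (f k)) e = 0
        · rw [h0]
          simp
        · obtain ⟨b, hb⟩ := LI_ne h0
          obtain ⟨x, y, hxy, hyx⟩ := equiv_of he (hf k) hb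
          have i1 : IsIdempotentElem (x * y) := hxy ▸ he.1
          have i2 : IsIdempotentElem (y * x) := hyx ▸ (hf k).1
          have hkI : (f k : A) ∈ I := by
            have e2 : f k = y * (x * y) * x := by
              rw [← hyx, ← mul_assoc, mul_assoc (y * x), i2.eq]
            have e3 : (f k : A) = (y : A) * (e : A) * (x : A) := by
              rw [e2, hxy]
              rfl
            rw [e3]
            exact I.mul_mem_right _ _ (I.mul_mem_left _ _ heI)
          have e1 : ∀ j, δ j (e : A) = δ j (f k : A) := by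
            intro j
            have h3 : ((x * y : B) : A) ∈ I := by
              rw [hxy]
              exact heI
            have h4 : ((y * x : B) : A) ∈ I := by
              rw [hyx]
              exact hkI
            have h5 := (hδ j).swap (x : A) (y : A) (congrArg Subtype.val i1)
              (congrArg Subtype.val i2) h3 h4
            have h6 : (x : A) * (y : A) = (e : A) := congrArg Subtype.val hxy
            have h7 : (y : A) * (x : A) = (f k : A) := congrArg Subtype.val hyx
            rw [h6, h7] at h5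
            exact h5
          have e2 : ∀ l, rk K (LI (f l)) (f k) = rk K (LI (f l)) e := by
            intro l
            have := fd_sub K (Ideal.span {f l} : Ideal B)
            rw [← hxy, ← hyx]
            exact (rk_swap K x y i1 i2).symm
          show (if (f k : A) ∈ I then (∑ j, δ j (f k)) /
            ((∑ l, rk K (LI (f l)) (f k) : ℕ) : ℝ) else 1) * _ = _
          rw [if_pos hkI]
          simp_rw [e1, e2]
      rw [Finset.sum_congr rfl fun k _ => h1 k, ← Finset.mul_sum]
      have h2 : ((∑ l, rk K (LI (f l)) e : ℕ) : ℝ) ≠ 0 := by exact_mod_cast hDe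
      rw [Nat.cast_sum] at h2 ⊢
      rw [div_mul_cancel₀ _ h2]
    · intro e e' he he' h1 h2 ih ih' hI'
      have heI : (e : A) ∈ I := by
        have h3 := I.mul_mem_left (e : A) _ hI'
        have h4 : (e : A) * ((e + e' : B) : A) = e := by
          have h5 : e * (e + e') = e := by rw [mul_add, he.eq, h1, add_zero]
          exact congrArg Subtype.val h5
        rwa [h4] at h3
      have heI' : (e' : A) ∈ I := by
        have h3 := I.mul_mem_left (e' : A) _ hI'
        have h4 : (e' : A) * ((e + e' : B) : A) = e' := by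
          have h5 : e' * (e + e') = e' := by rw [mul_add, he'.eq, h2, zero_add]
          exact congrArg Subtype.val h5
        rwa [h4] at h3
      have h3 : ∀ j, δ j ((e + e' : B) : A) = δ j (e : A) + δ j (e' : A) := fun j =>
        (hδ j).add _ heI _ heI' (congrArg Subtype.val he) (congrArg Subtype.val he')
          (congrArg Subtype.val h1) (congrArg Subtype.val h2)
      simp_rw [h3]
      rw [Finset.sum_add_distrib, ← ih heI, ← ih' heI', ← Finset.sum_add_distrib]
      refine Finset.sum_congr rfl fun k _ => ?_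
      have := fd_sub K (Ideal.span {f k} : Ideal B)
      rw [rk_add K e e' he he' h1 h2]
      push_cast
      ring
  refine ⟨r, f, c, hs, ?_, ?_⟩
  · intro k
    show 0 < (if (f k : A) ∈ I then _ else _)
    split
    · next hk =>
      refine div_pos (Finset.sum_pos' (fun j _ => (hδ j).nonneg _ hk (hfi k)) ⟨k,
        Finset.mem_univ k, hpos k hk⟩) (hD k)
    · exact zero_lt_one
  · -- the idempotents in `I`
    have h1 : ∀ e : B₀, IsIdempotentElem e → (e : A) ∈ I →
        ∑ k, c k * rk K (LI (f k)) (Subalgebra.inclusion h₀ e) =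
          ∑ k, c k * rk K (LI (f k)) (rs α B₀ B h₁ e) := by
      intro e he heI
      rw [key _ (he.map _) heI, key _ (he.map _) ((hαI _).1 heI)]
      refine Finset.sum_congr rfl fun j _ => ?_
      exact (hα j _ heI (congrArg Subtype.val he)).symm
    intro e he
    rcases mem_or_of_idem I hIK (e : A) (congrArg Subtype.val he) with heI | heI
    · exact h1 e he heI
    · have h2 := h1 (1 - e) he.one_sub heI
      have h3 : ∀ (σ : B₀ →ₐ[K] B) (k : Fin r), (rk K (LI (f k)) (σ e) : ℝ) =
          rk K (LI (f k)) (1 : B) - rk K (LI (f k)) (σ (1 - e)) := by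
        intro σ k
        have := fd_sub K (Ideal.span {f k} : Ideal B)
        have h4 := rk_add K (V := LI (f k)) (σ e) (σ (1 - e)) (he.map σ) (he.one_sub.map σ)
          (by rw [← map_mul, mul_sub, mul_one, he.eq, sub_self, map_zero])
          (by rw [← map_mul, sub_mul, one_mul, he.eq, sub_self, map_zero])
        rw [← map_add, add_sub_cancel, map_one] at h4
        rw [h4]
        push_cast
        ring
      simp_rw [h3, mul_sub, Finset.sum_sub_distrib]
      rw [h2]

end

/-- **kernels in unit groups of locally semisimple algebras** -/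
theorem main {C : ∀ (G : Type) [Group G], Prop} (hC : ClosedE C) (G : Type) [Group G]
    (N : Subgroup G) [hN : N.Normal] (hCN : C N) (hQ : C (G ⧸ N))
    (h : ∀ g : G, (∀ n : ℕ, 0 < n → g ^ n ∉ N) →
      ∃ (K A : Type) (_ : Field K) (_ : Ring A) (_ : Algebra K A) (u : N →* Aˣ) (α : A ≃ₐ[K] A),
        (∀ d : ℕ, C (Matrix (Fin d) (Fin d) K)ˣ) ∧ LocallySemisimple K A ∧
        Function.Injective u ∧ (∀ n : N, α (u n) = u ⟨g * n * g⁻¹, hN.conj_mem n n.2 g⟩) ∧
        (NoInvariantIdeal α ∨ HasInvariantDimensions α)) : C G := by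
  refine Pool.Agent.Y529.FJ.t_ext C hC G N hCN hQ fun g hg => ?_
  refine Pool.Agent.R779.FJ.t_col (Pool.Agent.Y961.FJ.t_perm Pool.Agent.Y529.FJ.t_ext) C hC G N g hg
    fun E hE hEN => ?_
  obtain ⟨K, A, _, _, _, u, α, hK, hA, hu, hα, hw⟩ := h g hg
  refine realized N g hK hA u hu α hα ?_ E hE hEN
  rcases hw with hw | hw
  · exact weights_of_noInv hA α hw
  · exact weights_of_ideal α hw

end Pool.Agent.N24.LM
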