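import Pool.Agent.N24.LM.Rk

/-!
# Modules over semisimple algebras with equal ranks of the idempotents are isomorphic
-/

set_option autoImplicit false

namespace Pool.Agent.N24.LM

open Module

section

variable (K : Type) {B : Type} [Field K] [Ring B] [Algebra K B]

theorem fd_sub {V : Type} [AddCommGroup V] [Module K V] [Module B V] [IsScalarTower K B V]
    [FiniteDimensional K V] (S : Submodule B V) : FiniteDimensional K S :=
  inferInstanceAs (FiniteDimensional K (S.restrictScalars K))

theorem iso_aux [IsSemisimpleRing B] (n : ℕ) : ∀ (V W : Type) [AddCommGroup V] [AddCommGroup W]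
    [Module K V] [Module K W] [Module B V] [Module B W] [IsScalarTower K B V] [IsScalarTower K B W]
    [FiniteDimensional K V] [FiniteDimensional K W], finrank K V = n →
    (∀ e : B, IsIdempotentElem e → rk K V e = rk K W e) → Nonempty (V ≃ₗ[B] W) := by
  induction n using Nat.strong_induction_on with
  | _ n ih =>
    intro V W _ _ _ _ _ _ _ _ _ _ hn hrk
    rcases Nat.eq_zero_or_pos n with h0 | hpos
    · have hV : Subsingleton V := finrank_zero_iff.1 (hn.trans h0)
      have hW : Subsingleton W := by
        apply (finrank_zero_iff (R := K) (M := W)).1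
        rw [← rk_one K (B := B), ← hrk 1 IsIdempotentElem.one, rk_one, hn, h0]
      exact ⟨{ toFun := 0, invFun := 0, left_inv := fun _ => Subsingleton.elim _ _,
               right_inv := fun _ => Subsingleton.elim _ _, map_add' := fun _ _ => by simp,
               map_smul' := fun _ _ => by simp }⟩
    · have hV : Nontrivial V := by
        by_contra h
        rw [not_nontrivial_iff_subsingleton] at h
        have := finrank_zero_of_subsingleton (R := K) (M := V)
        omega
      obtain ⟨S, hS⟩ := IsSemisimpleModule.exists_simple_submodule B V
      have hSn : Nontrivial S := IsSimpleModule.nontrivial B S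
      obtain ⟨s, hs⟩ := exists_ne (0 : S)
      -- the idempotent
      have hg := IsSimpleModule.toSpanSingleton_surjective B hs
      obtain ⟨f, hf, hI⟩ := IsSemisimpleRing.ideal_eq_span_idempotent
        (LinearMap.ker (LinearMap.toSpanSingleton B S s))
      have hfs : f • s = 0 := by
        have h1 : f ∈ LinearMap.ker (LinearMap.toSpanSingleton B S s) := by
          rw [hI]
          exact Ideal.mem_span_singleton_self f
        exact h1
      have he : IsIdempotentElem (1 - f) := hf.one_sub
      have hes : (1 - f) • s = s := by rw [sub_smul, one_smul, hfs, sub_zero]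
      have h1 : rk K V (1 - f) ≠ 0 := by
        intro h
        have h2 := (rk_eq_zero K).1 h (s : V)
        apply hs
        rw [← hes]
        apply Subtype.ext
        exact h2
      rw [hrk _ he] at h1
      obtain ⟨w, hw⟩ : ∃ w : W, (1 - f) • w ≠ 0 := by
        by_contra h
        push Not at h
        exact h1 ((rk_eq_zero K).2 h)
      have hker : LinearMap.ker (LinearMap.toSpanSingleton B S s) ≤
          LinearMap.ker (LinearMap.toSpanSingleton B W ((1 - f) • w)) := by
        intro b hb
        rw [hI, Ideal.mem_span_singleton'] at hb
        obtain ⟨c, rfl⟩ := hb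
        show (c * f) • (1 - f) • w = 0
        rw [smul_smul, mul_assoc, mul_sub, mul_one, hf.eq, sub_self, mul_zero, zero_smul]
      let φ : S →ₗ[B] W :=
        ((LinearMap.ker (LinearMap.toSpanSingleton B S s)).liftQ
          (LinearMap.toSpanSingleton B W ((1 - f) • w)) hker) ∘ₗ
        (LinearMap.quotKerEquivOfSurjective _ hg).symm.toLinearMap
      have hφs : φ s = (1 - f) • w := by
        have h3 : (LinearMap.quotKerEquivOfSurjective _ hg).symm s =
            Submodule.Quotient.mk (1 : B) := by
          rw [LinearEquiv.symm_apply_eq]
          show s = (1 : B) • s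
          rw [one_smul]
        show ((LinearMap.ker (LinearMap.toSpanSingleton B S s)).liftQ
          (LinearMap.toSpanSingleton B W ((1 - f) • w)) hker)
          ((LinearMap.quotKerEquivOfSurjective _ hg).symm s) = _
        rw [h3, Submodule.liftQ_apply]
        exact one_smul _ _
      have hφ : Function.Injective φ := by
        apply LinearMap.injective_of_ne_zero
        intro h
        apply hw
        rw [← hφs, h]
        rfl
      let φ' : S ≃ₗ[B] LinearMap.range φ := LinearEquiv.ofInjective φ hφ
      obtain ⟨V', hV'⟩ := exists_isCompl S
      obtain ⟨W', hW'⟩ := exists_isCompl (LinearMap.range φ)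
      have i1 : FiniteDimensional K S := fd_sub K S
      have i2 : FiniteDimensional K V' := fd_sub K V'
      have i3 : FiniteDimensional K (LinearMap.range φ) := fd_sub K _
      have i4 : FiniteDimensional K W' := fd_sub K W'
      let eV : (S × V') ≃ₗ[B] V := Submodule.prodEquivOfIsCompl S V' hV'
      let eW : (LinearMap.range φ × W') ≃ₗ[B] W := Submodule.prodEquivOfIsCompl _ W' hW'
      have hrk' : ∀ e : B, IsIdempotentElem e → rk K V' e = rk K W' e := by
        intro e he
        have h3 := hrk e he
        rw [← rk_equiv K eV, ← rk_equiv K eW, rk_prod, rk_prod, rk_equiv K φ'] at h3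
        omega
      have hlt : finrank K V' < n := by
        have h3 : rk K V (1 : B) = rk K S (1 : B) + rk K V' (1 : B) := by
          rw [← rk_equiv K eV, rk_prod]
        rw [rk_one, rk_one, rk_one] at h3
        have h4 : 0 < finrank K S := by
          have := IsSimpleModule.nontrivial B S
          exact finrank_pos
        omega
      obtain ⟨ψ⟩ := ih _ hlt V' W' rfl hrk'
      exact ⟨(eV.symm.trans (φ'.prodCongr ψ)).trans eW⟩

end

/-- the module of a representation -/
def Rp {K B V : Type} [Field K] [Ring B] [Algebra K B] [AddCommGroup V] [Module K V]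
    (_ : B →ₐ[K] Module.End K V) : Type := V

section rp

variable {K B V : Type} [Field K] [Ring B] [Algebra K B] [AddCommGroup V] [Module K V]
  (σ : B →ₐ[K] Module.End K V)

instance : AddCommGroup (Rp σ) := inferInstanceAs (AddCommGroup V)

instance : Module K (Rp σ) := inferInstanceAs (Module K V)

instance [FiniteDimensional K V] : FiniteDimensional K (Rp σ) :=
  inferInstanceAs (FiniteDimensional K V)

instance : Module B (Rp σ) := Module.compHom V (σ : B →+* Module.End K V)

theorem rp_smul (b : B) (v : V) : (b • (show Rp σ from v) : Rp σ) = σ b v := rfl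

instance : IsScalarTower K B (Rp σ) := ⟨fun k b v => by
  show σ (k • b) v = k • σ b v
  rw [map_smul]
  rfl⟩

end rp

/-- two representations of a semisimple algebra with equal ranks of all idempotents are conjugate -/
theorem exists_conj' {K B V W : Type} [Field K] [Ring B] [Algebra K B] [IsSemisimpleRing B]
    [AddCommGroup V] [Module K V] [FiniteDimensional K V] [AddCommGroup W] [Module K W]
    [FiniteDimensional K W] (σ : B →ₐ[K] Module.End K V) (σ' : B →ₐ[K] Module.End K W)
    (h : ∀ e : B, IsIdempotentElem e → finrank K (LinearMap.range (σ e)) =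
      finrank K (LinearMap.range (σ' e))) :
    ∃ T : V ≃ₗ[K] W, ∀ b v, T (σ b v) = σ' b (T v) := by
  have h' : ∀ e : B, IsIdempotentElem e → rk K (Rp σ) e = rk K (Rp σ') e := h
  obtain ⟨φ⟩ := iso_aux K (B := B) (finrank K (Rp σ)) (Rp σ) (Rp σ') rfl h'
  let T : Rp σ ≃ₗ[K] Rp σ' := φ.restrictScalars K
  exact ⟨T, fun b v => map_smul φ b (show Rp σ from v)⟩

end Pool.Agent.N24.LM
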