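import Pool.Agent.N24.LM.Model
import Pool.Agent.N24.FV.Fs

/-!
# Kernels in the unit groups of locally semisimple algebras
-/

set_option autoImplicit false

namespace Pool.Agent.N24.LM

open Module Pool.Agent.Y110.FJ

/-- every finite subset lies in a finite-dimensional semisimple subalgebra -/
def LocallySemisimple (K A : Type) [Field K] [Ring A] [Algebra K A] : Prop :=
  ∀ S : Set A, S.Finite → ∃ B : Subalgebra K A, S ⊆ B ∧ FiniteDimensional K B ∧ IsSemisimpleRing B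

section

variable {K A : Type} [Field K] [Ring A] [Algebra K A] (α : A ≃ₐ[K] A)

/-- the restriction of an automorphism to a subalgebra -/
def rs (B₀ B : Subalgebra K A) (h : ∀ b ∈ B₀, α b ∈ B) : B₀ →ₐ[K] B :=
  ((α : A →ₐ[K] A).comp B₀.val).codRestrict B fun b => h b b.2

/-- the partial automorphisms given by `α` preserve positive combinations of ranks -/
def HasWeights : Prop :=
  ∀ (B₀ B : Subalgebra K A) (_ : FiniteDimensional K B₀) (_ : FiniteDimensional K B)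
    (_ : IsSemisimpleRing B₀) (_ : IsSemisimpleRing B) (h₀ : B₀ ≤ B) (h₁ : ∀ b ∈ B₀, α b ∈ B),
    ∃ (r : ℕ) (f : Fin r → B) (c : Fin r → ℝ), ∑ k, f k = 1 ∧ (∀ k, 0 < c k) ∧
      ∀ e : B₀, IsIdempotentElem e →
        ∑ k, c k * rk K (LI (f k)) (Subalgebra.inclusion h₀ e) =
          ∑ k, c k * rk K (LI (f k)) (rs α B₀ B h₁ e)

theorem exists_pair (hA : LocallySemisimple K A) (S : Set A) (hS : S.Finite) :
    ∃ (B₀ B : Subalgebra K A), S ⊆ B₀ ∧ FiniteDimensional K B₀ ∧ FiniteDimensional K B ∧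
      IsSemisimpleRing B₀ ∧ IsSemisimpleRing B ∧ B₀ ≤ B ∧ ∀ b ∈ B₀, α b ∈ B := by
  obtain ⟨B₀, hSB, h1, h2⟩ := hA S hS
  obtain ⟨F, hF, hspan⟩ := Submodule.fg_def.1 (Module.Finite.iff_fg.1 h1 : B₀.toSubmodule.FG)
  obtain ⟨B, hFB, h3, h4⟩ := hA (F ∪ α '' F) (hF.union (hF.image _))
  have hle : Submodule.span K F ≤ B.toSubmodule :=
    Submodule.span_le.2 fun x hx => hFB (Or.inl hx)
  have hle' : Submodule.span K F ≤ B.toSubmodule.comap (α : A →ₐ[K] A).toLinearMap :=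
    Submodule.span_le.2 fun x hx => hFB (Or.inr ⟨x, hx, rfl⟩)
  rw [hspan] at hle hle'
  exact ⟨B₀, B, hSB, h1, h3, h2, h4, fun b hb => hle hb, fun b hb => hle' hb⟩

end

theorem realized {C : ∀ (G : Type) [Group G], Prop} {G : Type} [Group G]
    (N : Subgroup G) [hN : N.Normal] (g : G) {K A : Type} [Field K] [Ring A] [Algebra K A]
    (hK : ∀ d : ℕ, C (Matrix (Fin d) (Fin d) K)ˣ) (hA : LocallySemisimple K A) (u : N →* Aˣ)
    (hu : Function.Injective u) (α : A ≃ₐ[K] A)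
    (hα : ∀ n : N, α (u n) = u ⟨g * n * g⁻¹, hN.conj_mem n n.2 g⟩) (hw : HasWeights α)
    (E : Set G) (hE : E.Finite) (hEN : E ⊆ N) : Realized C g E := by
  classical
  obtain ⟨S, hS⟩ : ∃ S : Set A, S = ⋃ x : E, {((u ⟨x, hEN x.2⟩ : Aˣ) : A),
    (((u ⟨x, hEN x.2⟩)⁻¹ : Aˣ) : A)} := ⟨_, rfl⟩
  have : Finite E := hE
  have hSf : S.Finite := by
    rw [hS]
    exact Set.finite_iUnion fun x => Set.toFinite _
  obtain ⟨B₀, B, hSB, h1, h2, h3, h4, hle, hle'⟩ := exists_pair α hA S hSf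
  obtain ⟨r, f, c, hs, hc, hinv⟩ := hw B₀ B h1 h2 h3 h4 hle hle'
  obtain ⟨d, Θ, T, hΘ, hT⟩ := model K f hs (Subalgebra.inclusion hle) (rs α B₀ B hle') c hc hinv
  -- the elements of `N` whose images are in `B`
  let S' : Subgroup N :=
    { carrier := {n | ((u n : Aˣ) : A) ∈ B ∧ (((u n)⁻¹ : Aˣ) : A) ∈ B}
      one_mem' := by
        show ((u 1 : Aˣ) : A) ∈ B ∧ (((u 1)⁻¹ : Aˣ) : A) ∈ B
        rw [map_one, inv_one, Units.val_one]
        exact ⟨B.one_mem, B.one_mem⟩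
      mul_mem' := by
        rintro a b ⟨ha, ha'⟩ ⟨hb, hb'⟩
        show ((u (a * b) : Aˣ) : A) ∈ B ∧ (((u (a * b))⁻¹ : Aˣ) : A) ∈ B
        rw [map_mul, mul_inv_rev, Units.val_mul, Units.val_mul]
        exact ⟨B.mul_mem ha hb, B.mul_mem hb' ha'⟩
      inv_mem' := by
        rintro a ⟨ha, ha'⟩
        show ((u a⁻¹ : Aˣ) : A) ∈ B ∧ (((u a⁻¹)⁻¹ : Aˣ) : A) ∈ B
        rw [map_inv, inv_inv]
        exact ⟨ha', ha⟩ }
  have hclN : Subgroup.closure (E ∪ (fun x => g * x * g⁻¹) '' E) ≤ N := by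
    rw [Subgroup.closure_le]
    rintro _ (hx | ⟨x, hx, rfl⟩)
    · exact hEN hx
    · exact hN.conj_mem x (hEN hx) g
  have hE0 : ∀ x : G, ∀ hx : x ∈ E, ((u ⟨x, hEN hx⟩ : Aˣ) : A) ∈ B₀ ∧
      (((u ⟨x, hEN hx⟩)⁻¹ : Aˣ) : A) ∈ B₀ := by
    intro x hx
    refine ⟨hSB ?_, hSB ?_⟩
    · rw [hS]
      exact Set.mem_iUnion.2 ⟨⟨x, hx⟩, Or.inl rfl⟩
    · rw [hS]
      exact Set.mem_iUnion.2 ⟨⟨x, hx⟩, Or.inr rfl⟩
  have hcl : Subgroup.closure (E ∪ (fun x => g * x * g⁻¹) '' E) ≤ S'.map N.subtype := by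
    rw [Subgroup.closure_le]
    rintro _ (hx | ⟨x, hx, rfl⟩)
    · exact ⟨⟨_, hEN hx⟩, ⟨hle (hE0 _ hx).1, hle (hE0 _ hx).2⟩, rfl⟩
    · refine ⟨⟨g * x * g⁻¹, hN.conj_mem x (hEN hx) g⟩, ⟨?_, ?_⟩, rfl⟩
      · rw [← hα ⟨x, hEN hx⟩]
        exact hle' _ (hE0 _ hx).1
      · have e1 : (u ⟨g * x * g⁻¹, hN.conj_mem x (hEN hx) g⟩)⁻¹ =
            Units.map (α : A →* A) (u ⟨x, hEN hx⟩)⁻¹ := by
          rw [map_inv]
          congr 1
          apply Units.ext
          exact (hα ⟨x, hEN hx⟩).symm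
        rw [e1]
        exact hle' _ (hE0 _ hx).2
  have hB : ∀ x : Subgroup.closure (E ∪ (fun x => g * x * g⁻¹) '' E),
      ((u (Subgroup.inclusion hclN x) : Aˣ) : A) ∈ B := by
    intro x
    obtain ⟨n, hn, hnx⟩ := hcl x.2
    have e1 : Subgroup.inclusion hclN x = n := Subtype.ext hnx.symm
    rw [e1]
    exact hn.1
  let F : Subgroup.closure (E ∪ (fun x => g * x * g⁻¹) '' E) →* Matrix (Fin d) (Fin d) K :=
    { toFun := fun x => Θ ⟨_, hB x⟩
      map_one' := by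
        rw [← map_one Θ]
        congr 1
        apply Subtype.ext
        show ((u (Subgroup.inclusion hclN 1) : Aˣ) : A) = 1
        rw [map_one, map_one, Units.val_one]
      map_mul' := by
        intro x y
        rw [← map_mul Θ]
        congr 1
        apply Subtype.ext
        show ((u (Subgroup.inclusion hclN (x * y)) : Aˣ) : A) = _
        rw [map_mul, map_mul, Units.val_mul]
        rfl }
  refine ⟨(Matrix (Fin d) (Fin d) K)ˣ, inferInstance, F.toHomUnits, T, hK d, ?_, ?_⟩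
  · intro x y hxy
    have e1 : F x = F y := congrArg Units.val hxy
    have e2 := congrArg Subtype.val (hΘ e1)
    exact Subgroup.inclusion_injective hclN (hu (Units.ext e2))
  · intro x y hx hy
    rw [eq_mul_inv_iff_mul_eq]
    apply Units.ext
    show F y * (T : Matrix (Fin d) (Fin d) K) = T * F x
    have e1 : Subgroup.inclusion hclN x = ⟨x, hEN hx⟩ := rfl
    have e3 : (⟨_, hB x⟩ : B) = Subalgebra.inclusion hle ⟨_, (hE0 x hx).1⟩ := rfl
    have e4 : (⟨_, hB y⟩ : B) = rs α B₀ B hle' ⟨_, (hE0 x hx).1⟩ := by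
      apply Subtype.ext
      show ((u (Subgroup.inclusion hclN y) : Aˣ) : A) = α (u ⟨x, hEN hx⟩)
      rw [hα]
      have e5 : Subgroup.inclusion hclN y =
          ⟨g * x * g⁻¹, hN.conj_mem _ (hEN hx) g⟩ := Subtype.ext hy
      rw [e5]
    show Θ ⟨_, hB y⟩ * (T : Matrix (Fin d) (Fin d) K) = T * Θ ⟨_, hB x⟩
    rw [e3, e4, hT]

/-- a ring in which every nonzero idempotent has positive value under some dimension function that
is invariant under `α` -/
theorem weights_of_dim {K A : Type} [Field K] [Ring A] [Algebra K A] (α : A ≃ₐ[K] A)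
    (h : ∀ e : A, IsIdempotentElem e → e ≠ 0 → ∃ δ : A → ℝ, IsDim δ ∧
      (∀ x, IsIdempotentElem x → δ (α x) = δ x) ∧ 0 < δ e) : HasWeights α := by
  intro B₀ B _ _ _ _ h₀ h₁
  obtain ⟨r, f, hf, hs⟩ := exists_min K (B := B)
  have hfi : ∀ k, IsIdempotentElem (f k : A) := fun k => congrArg Subtype.val (hf k).1
  choose δ hδ hα hpos using fun k => h (f k : A) (hfi k) fun h0 => (hf k).2.1 (Subtype.ext h0)
  -- the sum of the dimension functions
  have hδB : ∀ k, IsDim (fun b : B => δ k (b : A)) := fun k =>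
    { nonneg := fun e he => (hδ k).nonneg _ (congrArg Subtype.val he)
      add := fun e e' he he' h1 h2 => (hδ k).add _ _ (congrArg Subtype.val he)
        (congrArg Subtype.val he') (congrArg Subtype.val h1) (congrArg Subtype.val h2)
      swap := fun x y h1 h2 => (hδ k).swap _ _ (congrArg Subtype.val h1)
        (congrArg Subtype.val h2) }
  have hD : ∀ k, 0 < ((∑ l, rk K (LI (f l)) (f k) : ℕ) : ℝ) := by
    intro k
    have h1 : 0 < ∑ l, rk K (LI (f l)) (f k) := by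
      rw [Nat.pos_iff_ne_zero]
      intro h0
      have h2 := LI_zero (Finset.sum_eq_zero_iff.1 h0 k (Finset.mem_univ k))
      rw [(hf k).1.eq] at h2
      exact (hf k).2.1 h2
    exact_mod_cast h1
  refine ⟨r, f, fun k => ∑ j, δ j (f k) / ((∑ l, rk K (LI (f l)) (f k) : ℕ) : ℝ), hs, ?_, ?_⟩
  · intro k
    refine Finset.sum_pos' (fun j _ => div_nonneg ((hδ j).nonneg _ (hfi k)) (hD k).le) ⟨k,
      Finset.mem_univ k, div_pos (hpos k) (hD k)⟩
  · intro e he
    have key : ∀ b : B, IsIdempotentElem b →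
        ∑ k, (∑ j, δ j (f k) / ((∑ l, rk K (LI (f l)) (f k) : ℕ) : ℝ)) * rk K (LI (f k)) b =
          ∑ j, δ j (b : A) := by
      intro b hb
      simp_rw [Finset.sum_mul]
      rw [Finset.sum_comm]
      refine Finset.sum_congr rfl fun j _ => ?_
      exact (dim_eq f hf hs (hδB j) b hb).symm
    rw [key _ (he.map _), key _ (he.map _)]
    refine Finset.sum_congr rfl fun j _ => ?_
    exact (hα j _ (congrArg Subtype.val he)).symm

end Pool.Agent.N24.LM
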