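import Mathlib

/-!
# Positive real solutions of integral linear systems give positive integral solutions
-/

set_option autoImplicit false

namespace Pool.Agent.N24.LM

theorem pos_rat {I J : Type} [Finite J] [Fintype J] (A : I → J → ℤ) (r : J → ℝ)
    (hr : ∀ j, 0 < r j) (hA : ∀ i, ∑ j, (A i j : ℝ) * r j = 0) :
    ∃ m : J → ℚ, (∀ j, 0 < m j) ∧ ∀ i, ∑ j, (A i j : ℚ) * m j = 0 := by
  obtain ⟨W, hW⟩ : ∃ W : Submodule ℚ ℝ, W = Submodule.span ℚ (Set.range r) := ⟨_, rfl⟩
  have hfd : FiniteDimensional ℚ W := by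
    rw [hW]
    exact FiniteDimensional.span_of_finite ℚ (Set.finite_range r)
  have hrW : ∀ j, r j ∈ W := fun j => hW ▸ Submodule.subset_span ⟨j, rfl⟩
  let b := Module.finBasis ℚ W
  let k := Module.finrank ℚ W
  let q : J → Fin k → ℚ := fun j l => b.repr ⟨r j, hrW j⟩ l
  have hq : ∀ j, r j = ∑ l, (q j l : ℝ) * (b l : ℝ) := by
    intro j
    have h1 := b.sum_repr ⟨r j, hrW j⟩
    have h2 := congrArg (fun w : W => (w : ℝ)) h1
    simp only [Submodule.coe_sum, Submodule.coe_smul] at h2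
    rw [← h2]
    refine Finset.sum_congr rfl fun l _ => ?_
    exact (Rat.smul_def _ _)
  -- the open set
  let U : Set (Fin k → ℝ) := {x | ∀ j, 0 < ∑ l, (q j l : ℝ) * x l}
  have hU : IsOpen U := by
    have : U = ⋂ j, {x : Fin k → ℝ | 0 < ∑ l, (q j l : ℝ) * x l} := by
      ext x
      simp [U]
    rw [this]
    exact isOpen_iInter_of_finite fun j => isOpen_lt continuous_const (by fun_prop)
  have hne : (fun l => (b l : ℝ)) ∈ U := fun j => by
    rw [← hq]
    exact hr j
  have hdense : DenseRange (Pi.map (fun (_ : Fin k) (x : ℚ) => (x : ℝ))) :=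
    DenseRange.piMap fun _ => Rat.denseRange_cast
  obtain ⟨x, hx⟩ := hdense.exists_mem_open hU ⟨_, hne⟩
  refine ⟨fun j => ∑ l, q j l * x l, fun j => ?_, fun i => ?_⟩
  · have h1 : 0 < ∑ l, (q j l : ℝ) * (x l : ℝ) := hx j
    exact_mod_cast h1
  · -- the relation holds coordinatewise
    have h1 : ∑ j, (A i j : ℚ) • (⟨r j, hrW j⟩ : W) = 0 := by
      apply Subtype.ext
      simp only [Submodule.coe_sum, Submodule.coe_smul, Submodule.coe_zero]
      rw [← hA i]
      refine Finset.sum_congr rfl fun j _ => ?_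
      rw [Rat.smul_def]
      push_cast
      rfl
    have h2 : ∀ l, ∑ j, (A i j : ℚ) * q j l = 0 := by
      intro l
      have h3 := congrArg (fun w => b.repr w l) h1
      simp only [map_sum, map_smul, map_zero, Finsupp.coe_zero, Pi.zero_apply,
        Finsupp.finset_sum_apply, Finsupp.smul_apply, smul_eq_mul] at h3
      exact h3
    calc ∑ j, (A i j : ℚ) * ∑ l, q j l * x l = ∑ l, (∑ j, (A i j : ℚ) * q j l) * x l := by
          simp_rw [Finset.mul_sum, Finset.sum_mul]
          rw [Finset.sum_comm]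
          refine Finset.sum_congr rfl fun l _ => Finset.sum_congr rfl fun j _ => ?_
          ring
      _ = 0 := by simp [h2]

theorem pos_int {I J : Type} [Fintype J] (A : I → J → ℤ) (r : J → ℝ)
    (hr : ∀ j, 0 < r j) (hA : ∀ i, ∑ j, (A i j : ℝ) * r j = 0) :
    ∃ m : J → ℕ, (∀ j, 0 < m j) ∧ ∀ i, ∑ j, A i j * (m j : ℤ) = 0 := by
  classical
  obtain ⟨m, hm, hm'⟩ := pos_rat A r hr hA
  let d : ℕ := ∏ j, (m j).den
  have hd : 0 < d := Finset.prod_pos fun j _ => (m j).den_pos
  have key : ∀ j, ∃ n : ℕ, 0 < n ∧ (n : ℚ) = m j * d := by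
    intro j
    obtain ⟨c, hc⟩ : (m j).den ∣ d := Finset.dvd_prod_of_mem _ (Finset.mem_univ j)
    have h1 : (m j) * d = ((m j).num * c : ℤ) := by
      rw [hc]
      push_cast
      rw [← mul_assoc, Rat.mul_den_eq_num]
    have h2 : 0 < (m j) * d := mul_pos (hm j) (by exact_mod_cast hd)
    rw [h1] at h2
    have h3 : 0 < (m j).num * c := by exact_mod_cast h2
    refine ⟨((m j).num * c).toNat, by omega, ?_⟩
    rw [h1]
    have h4 : ((((m j).num * c).toNat : ℤ)) = (m j).num * c := Int.toNat_of_nonneg h3.le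
    exact_mod_cast h4
  choose n hn hn' using key
  refine ⟨n, hn, fun i => ?_⟩
  have h1 : ∑ j, (A i j : ℚ) * (n j : ℚ) = 0 := by
    have h2 : ∀ j, (A i j : ℚ) * (n j : ℚ) = ((A i j : ℚ) * m j) * d := by
      intro j
      rw [hn' j]
      ring
    simp_rw [h2]
    rw [← Finset.sum_mul, hm' i, zero_mul]
  exact_mod_cast h1

end Pool.Agent.N24.LM
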