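import Pool.Agent.N24.LM.Dim
import Pool.Agent.N24.LM.Pos

/-!
# A representation in which a partial automorphism is inner
-/

set_option autoImplicit false

namespace Pool.Agent.N24.LM

open Module

section

variable (K : Type) {B : Type} [Field K] [Ring B] [Algebra K B]

theorem rk_pi {J : Type} [Fintype J] (V : J → Type) [∀ j, AddCommGroup (V j)] [∀ j, Module K (V j)]
    [∀ j, Module B (V j)] [∀ j, IsScalarTower K B (V j)] [∀ j, FiniteDimensional K (V j)] (b : B) :
    rk K (∀ j, V j) b = ∑ j, rk K (V j) b := by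
  classical
  let e : LinearMap.range (Algebra.lsmul K K (∀ j, V j) b) ≃ₗ[K]
      (∀ j, LinearMap.range (Algebra.lsmul K K (V j) b)) :=
    { toFun := fun x j => ⟨x.1 j, by
        obtain ⟨v, hv⟩ := x.2
        exact ⟨v j, congrFun hv j⟩⟩
      invFun := fun y => ⟨fun j => y j, by
        choose v hv using fun j => (y j).2
        exact ⟨v, funext hv⟩⟩
      left_inv := fun _ => rfl
      right_inv := fun _ => rfl
      map_add' := fun _ _ => rfl
      map_smul' := fun _ _ => rfl }
  unfold rk
  rw [e.finrank_eq, Module.finrank_pi_fintype]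

/-- **the model**: if the partial automorphism `i₀ b ↦ i₁ b` preserves a dimension function with
positive values on the minimal idempotents then it is inner in some faithful representation -/
theorem model {B₀ : Type} [Ring B₀] [Algebra K B₀] [IsSemisimpleRing B₀] [IsSemisimpleRing B]
    [FiniteDimensional K B] {r : ℕ} (f : Fin r → B) (hs : ∑ k, f k = 1) (i₀ i₁ : B₀ →ₐ[K] B)
    (c : Fin r → ℝ) (hc : ∀ k, 0 < c k)
    (hinv : ∀ e : B₀, IsIdempotentElem e →
      ∑ k, c k * rk K (LI (f k)) (i₀ e) = ∑ k, c k * rk K (LI (f k)) (i₁ e)) :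
    ∃ (d : ℕ) (Θ : B →ₐ[K] Matrix (Fin d) (Fin d) K) (T : (Matrix (Fin d) (Fin d) K)ˣ),
      Function.Injective Θ ∧ ∀ b : B₀, (T : Matrix (Fin d) (Fin d) K) * Θ (i₀ b) = Θ (i₁ b) * T := by
  classical
  have hfd : ∀ k, FiniteDimensional K (LI (f k)) := fun k => fd_sub K _
  obtain ⟨m, hm, hm'⟩ := pos_int (I := {e : B₀ // IsIdempotentElem e})
    (fun e k => (rk K (LI (f k)) (i₀ e.1) : ℤ) - rk K (LI (f k)) (i₁ e.1)) c hc (by
      intro e
      have h1 := hinv e.1 e.2
      have h2 : ∀ k, (((rk K (LI (f k)) (i₀ e.1) : ℤ) - rk K (LI (f k)) (i₁ e.1) : ℤ) : ℝ) * c k =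
          c k * rk K (LI (f k)) (i₀ e.1) - c k * rk K (LI (f k)) (i₁ e.1) := by
        intro k
        push_cast
        ring
      simp_rw [h2]
      rw [Finset.sum_sub_distrib, h1, sub_self])
  let V : Type := ∀ k, Fin (m k) → LI (f k)
  have hrk : ∀ b : B, rk K V b = ∑ k, m k * rk K (LI (f k)) b := by
    intro b
    show rk K (∀ k, Fin (m k) → LI (f k)) b = _
    rw [rk_pi]
    refine Finset.sum_congr rfl fun k _ => ?_
    rw [rk_pi]
    simp
  let θ : B →ₐ[K] Module.End K V := Algebra.lsmul K K V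
  have hθ : Function.Injective θ := by
    rw [injective_iff_map_eq_zero]
    intro b hb
    rw [← mul_one b, ← hs, Finset.mul_sum]
    apply Finset.sum_eq_zero
    intro k _
    have h1 : θ b (fun _ _ => ⟨f _, Ideal.mem_span_singleton_self _⟩) = 0 := by
      rw [hb]
      rfl
    have h2 := congrFun (congrFun h1 k) ⟨0, hm k⟩
    exact congrArg Subtype.val h2
  obtain ⟨T, hT⟩ := exists_conj' (θ.comp i₀) (θ.comp i₁) (by
    intro e he
    show rk K V (i₀ e) = rk K V (i₁ e)
    rw [hrk, hrk]
    have h1 := hm' ⟨e, he⟩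
    have h2 : ∀ k, ((rk K (LI (f k)) (i₀ e) : ℤ) - rk K (LI (f k)) (i₁ e)) * m k =
        ((m k * rk K (LI (f k)) (i₀ e) : ℕ) : ℤ) - ((m k * rk K (LI (f k)) (i₁ e) : ℕ) : ℤ) := by
      intro k
      push_cast
      ring
    simp_rw [h2] at h1
    rw [Finset.sum_sub_distrib, ← Nat.cast_sum, ← Nat.cast_sum] at h1
    omega)
  let bs := Module.finBasis K V
  let τ := LinearMap.toMatrixAlgEquiv bs
  let Tu : (Module.End K V)ˣ :=
    { val := T.toLinearMap, inv := T.symm.toLinearMap
      val_inv := by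
        refine LinearMap.ext fun v => ?_
        exact T.apply_symm_apply v
      inv_val := by
        refine LinearMap.ext fun v => ?_
        exact T.symm_apply_apply v }
  refine ⟨Module.finrank K V, τ.toAlgHom.comp θ, Units.map (τ : Module.End K V →* _) Tu,
    τ.injective.comp hθ, fun b => ?_⟩
  show τ T.toLinearMap * τ (θ (i₀ b)) = τ (θ (i₁ b)) * τ T.toLinearMap
  rw [← map_mul, ← map_mul]
  congr 1
  refine LinearMap.ext fun v => ?_
  exact hT b v

end

end Pool.Agent.N24.LM
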