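import Mathlib

/-!
# Ranks of idempotents and isomorphisms of modules over semisimple algebras
-/

set_option autoImplicit false

namespace Pool.Agent.N24.LM

open Module

section endo

variable {K V : Type} [Field K] [AddCommGroup V] [Module K V] [FiniteDimensional K V]

theorem rk_le_swap (a b : Module.End K V) (h : IsIdempotentElem (a * b)) :
    finrank K (LinearMap.range (a * b)) ≤ finrank K (LinearMap.range (b * a)) := by
  have h1 : ∀ v ∈ LinearMap.range (a * b), a (b v) = v := by
    rintro _ ⟨w, rfl⟩
    exact LinearMap.congr_fun h w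
  let f : LinearMap.range (a * b) →ₗ[K] LinearMap.range (b * a) :=
    (b.domRestrict (LinearMap.range (a * b))).codRestrict _ (by
      intro v
      refine ⟨b v, ?_⟩
      show b (a (b v)) = b v
      rw [h1 v v.2])
  refine LinearMap.finrank_le_finrank_of_injective (f := f) ?_
  intro v w hvw
  have h2 : b (v : V) = b (w : V) := congrArg Subtype.val hvw
  apply Subtype.ext
  rw [← h1 v v.2, ← h1 w w.2, h2]

theorem rk_swap_end (a b : Module.End K V) (h : IsIdempotentElem (a * b))
    (h' : IsIdempotentElem (b * a)) :
    finrank K (LinearMap.range (a * b)) = finrank K (LinearMap.range (b * a)) :=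
  le_antisymm (rk_le_swap a b h) (rk_le_swap b a h')

theorem rk_add_end (a b : Module.End K V) (ha : IsIdempotentElem a) (hb : IsIdempotentElem b)
    (hab : a * b = 0) (hba : b * a = 0) :
    finrank K (LinearMap.range (a + b)) =
      finrank K (LinearMap.range a) + finrank K (LinearMap.range b) := by
  have h1 : LinearMap.range (a + b) = LinearMap.range a ⊔ LinearMap.range b := by
    apply le_antisymm
    · rintro _ ⟨v, rfl⟩
      exact Submodule.add_mem_sup ⟨v, rfl⟩ ⟨v, rfl⟩
    · refine sup_le ?_ ?_
      · rintro _ ⟨v, rfl⟩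
        refine ⟨a v, ?_⟩
        have e1 := LinearMap.congr_fun ha v
        have e2 := LinearMap.congr_fun hba v
        rw [Module.End.mul_apply] at e1 e2
        rw [LinearMap.add_apply, e1, e2]
        exact add_zero _
      · rintro _ ⟨v, rfl⟩
        refine ⟨b v, ?_⟩
        have e1 := LinearMap.congr_fun hb v
        have e2 := LinearMap.congr_fun hab v
        rw [Module.End.mul_apply] at e1 e2
        rw [LinearMap.add_apply, e1, e2]
        exact zero_add _
  have h2 : LinearMap.range a ⊓ LinearMap.range b = ⊥ := by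
    rw [eq_bot_iff]
    rintro x ⟨⟨v, hv⟩, ⟨w, hw⟩⟩
    have e1 := LinearMap.congr_fun ha v
    have e2 := LinearMap.congr_fun hab w
    rw [Module.End.mul_apply] at e1 e2
    rw [hv] at e1
    rw [hw] at e2
    rw [Submodule.mem_bot, ← e1, e2]
    rfl
  have h3 := Submodule.finrank_sup_add_finrank_inf_eq (LinearMap.range a) (LinearMap.range b)
  rw [h2, finrank_bot, add_zero, ← h1] at h3
  exact h3

end endo

section modules

variable (K : Type) {B : Type} [Field K] [Ring B] [Algebra K B]

/-- the rank of an element on a module -/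
noncomputable def rk (V : Type) [AddCommGroup V] [Module K V] [Module B V] [IsScalarTower K B V]
    (b : B) : ℕ := finrank K (LinearMap.range (Algebra.lsmul K K V b))

variable {V W : Type} [AddCommGroup V] [Module K V] [Module B V] [IsScalarTower K B V]
  [AddCommGroup W] [Module K W] [Module B W] [IsScalarTower K B W]

theorem rk_equiv (φ : V ≃ₗ[B] W) (b : B) : rk K V b = rk K W b := by
  let ψ : V ≃ₗ[K] W := φ.restrictScalars K
  have h1 : (LinearMap.range (Algebra.lsmul K K V b)).map (ψ : V →ₗ[K] W) =
      LinearMap.range (Algebra.lsmul K K W b) := by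
    ext w
    constructor
    · rintro ⟨_, ⟨v, rfl⟩, rfl⟩
      exact ⟨φ v, (map_smul φ b v).symm⟩
    · rintro ⟨w, rfl⟩
      refine ⟨_, ⟨φ.symm w, rfl⟩, ?_⟩
      show φ (b • φ.symm w) = b • w
      rw [map_smul, LinearEquiv.apply_symm_apply]
  unfold rk
  rw [← h1]
  exact (LinearEquiv.finrank_map_eq ψ _).symm

theorem rk_prod [FiniteDimensional K V] [FiniteDimensional K W] (b : B) :
    rk K (V × W) b = rk K V b + rk K W b := by
  let e : LinearMap.range (Algebra.lsmul K K (V × W) b) ≃ₗ[K]
      LinearMap.range (Algebra.lsmul K K V b) × LinearMap.range (Algebra.lsmul K K W b) :=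
    { toFun := fun x => (⟨x.1.1, by
        obtain ⟨v, hv⟩ := x.2
        exact ⟨v.1, congrArg Prod.fst hv⟩⟩, ⟨x.1.2, by
        obtain ⟨v, hv⟩ := x.2
        exact ⟨v.2, congrArg Prod.snd hv⟩⟩)
      invFun := fun y => ⟨(y.1.1, y.2.1), by
        obtain ⟨v, hv⟩ := y.1.2
        obtain ⟨w, hw⟩ := y.2.2
        exact ⟨(v, w), Prod.ext hv hw⟩⟩
      left_inv := fun _ => rfl
      right_inv := fun _ => rfl
      map_add' := fun _ _ => rfl
      map_smul' := fun _ _ => rfl }
  unfold rk
  rw [e.finrank_eq, Module.finrank_prod]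

theorem rk_eq_zero [FiniteDimensional K V] {b : B} : rk K V b = 0 ↔ ∀ v : V, b • v = 0 := by
  unfold rk
  rw [Submodule.finrank_eq_zero, LinearMap.range_eq_bot]
  constructor
  · intro h v
    exact LinearMap.congr_fun h v
  · intro h
    exact LinearMap.ext h

theorem rk_swap [FiniteDimensional K V] (x y : B) (h : IsIdempotentElem (x * y))
    (h' : IsIdempotentElem (y * x)) : rk K V (x * y) = rk K V (y * x) := by
  unfold rk
  rw [map_mul, map_mul]
  refine rk_swap_end _ _ ?_ ?_
  · rw [← map_mul]
    exact h.map _
  · rw [← map_mul]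
    exact h'.map _

theorem rk_add [FiniteDimensional K V] (e f : B) (he : IsIdempotentElem e)
    (hf : IsIdempotentElem f) (hef : e * f = 0) (hfe : f * e = 0) :
    rk K V (e + f) = rk K V e + rk K V f := by
  unfold rk
  rw [map_add]
  refine rk_add_end _ _ (he.map _) (hf.map _) ?_ ?_
  · rw [← map_mul, hef, map_zero]
  · rw [← map_mul, hfe, map_zero]

theorem rk_one : rk K V (1 : B) = finrank K V := by
  unfold rk
  rw [map_one]
  have : LinearMap.range (1 : Module.End K V) = ⊤ := LinearMap.range_id
  rw [this, finrank_top]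

end modules

end Pool.Agent.N24.LM
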