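import Pool.Agent.N24.LM.Main

/-!
# Algebras without invariant ideals
-/

set_option autoImplicit false

namespace Pool.Agent.N24.LM

open Module

section ranks

variable (K : Type) {B V : Type} [Field K] [Ring B] [Algebra K B] [AddCommGroup V] [Module K V]
  [Module B V] [IsScalarTower K B V] [FiniteDimensional K V]

theorem rk_mul_le_left (x y : B) : rk K V (x * y) ≤ rk K V x := by
  unfold rk
  apply Submodule.finrank_mono
  rintro _ ⟨v, rfl⟩
  exact ⟨y • v, (mul_smul x y v).symm⟩

theorem rk_mul_le_right (x y : B) : rk K V (x * y) ≤ rk K V y := by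
  unfold rk
  have h1 : LinearMap.range (Algebra.lsmul K K V (x * y)) =
      (LinearMap.range (Algebra.lsmul K K V y)).map (Algebra.lsmul K K V x) := by
    rw [map_mul]
    exact LinearMap.range_comp _ _
  rw [h1]
  exact Submodule.finrank_map_le _ _

theorem rk_add_le (x y : B) : rk K V (x + y) ≤ rk K V x + rk K V y := by
  unfold rk
  have h1 : LinearMap.range (Algebra.lsmul K K V (x + y)) ≤
      LinearMap.range (Algebra.lsmul K K V x) ⊔ LinearMap.range (Algebra.lsmul K K V y) := by
    rintro _ ⟨v, rfl⟩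
    rw [map_add]
    exact Submodule.add_mem_sup ⟨v, rfl⟩ ⟨v, rfl⟩
  exact (Submodule.finrank_mono h1).trans (Submodule.finrank_add_le_finrank_add_finrank _ _)

theorem rk_zero : rk K V (0 : B) = 0 := (rk_eq_zero K).2 fun _ => zero_smul _ _

theorem rk_sum_le {J : Type} (L : List J) (x y z : J → B) :
    rk K V (L.map fun p => x p * y p * z p).sum ≤ (L.map fun p => rk K V (y p)).sum := by
  induction L with
  | nil => simp [rk_zero]
  | cons a L ih =>
    rw [List.map_cons, List.sum_cons, List.map_cons, List.sum_cons]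
    refine (rk_add_le K _ _).trans (Nat.add_le_add ?_ ih)
    exact (rk_mul_le_left K _ _).trans (rk_mul_le_right K _ _)

end ranks

section

variable {K A : Type} [Field K] [Ring A] [Algebra K A]

/-- there are no two-sided ideals invariant under `α` except `0` and the whole ring -/
def NoInvariantIdeal (α : A ≃ₐ[K] A) : Prop :=
  Nontrivial A ∧ ∀ I : TwoSidedIdeal A, (∀ x, x ∈ I ↔ α x ∈ I) → I = ⊥ ∨ I = ⊤

theorem exists_list (α : A ≃ₐ[K] A) (hα : NoInvariantIdeal α) (e : A) (he : e ≠ 0) :
    ∃ L : List (A × ℤ × A), (L.map fun p => p.1 * (α ^ p.2.1) e * p.2.2).sum = 1 := by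
  set S : Set A := {x | ∃ k : ℤ, x = (α ^ k) e} with hS
  have hfw : ∀ β : A ≃ₐ[K] A, (∀ k : ℤ, ∃ l : ℤ, β ((α ^ k) e) = (α ^ l) e) →
      ∀ x ∈ TwoSidedIdeal.span S, β x ∈ TwoSidedIdeal.span S := by
    intro β hβ x hx
    induction hx using TwoSidedIdeal.span_induction with
    | mem x h =>
      obtain ⟨k, rfl⟩ := h
      obtain ⟨l, hl⟩ := hβ k
      rw [hl]
      exact TwoSidedIdeal.subset_span ⟨l, rfl⟩
    | zero =>
      rw [map_zero]
      exact TwoSidedIdeal.zero_mem _
    | add x y hx hy ihx ihy =>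
      rw [map_add]
      exact TwoSidedIdeal.add_mem _ ihx ihy
    | neg x hx ihx =>
      rw [map_neg]
      exact TwoSidedIdeal.neg_mem _ ihx
    | left_absorb a x hx ihx =>
      rw [map_mul]
      exact TwoSidedIdeal.mul_mem_left _ _ _ ihx
    | right_absorb b x hx ihx =>
      rw [map_mul]
      exact TwoSidedIdeal.mul_mem_right _ _ _ ihx
  have hinv : ∀ x, x ∈ TwoSidedIdeal.span S ↔ α x ∈ TwoSidedIdeal.span S := by
    intro x
    constructor
    · exact hfw α (fun k => ⟨1 + k, by rw [zpow_add, zpow_one]; rfl⟩) x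
    · intro h
      have h1 := hfw α⁻¹ (fun k => ⟨-1 + k, by rw [zpow_add, zpow_neg_one]; rfl⟩) _ h
      have h2 : α⁻¹ (α x) = x := by
        rw [← AlgEquiv.mul_apply, inv_mul_cancel]
        rfl
      rwa [h2] at h1
  have htop : TwoSidedIdeal.span S = ⊤ := by
    rcases hα.2 _ hinv with h | h
    · exfalso
      apply he
      have h1 : e ∈ TwoSidedIdeal.span S := TwoSidedIdeal.subset_span ⟨0, by
        rw [zpow_zero]
        rfl⟩
      rw [h] at h1
      exact (TwoSidedIdeal.mem_bot _).1 h1
    · exact h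
  have h1 : (1 : A) ∈ TwoSidedIdeal.span S := by
    rw [htop]
    trivial
  have key : ∀ x ∈ TwoSidedIdeal.span S,
      ∃ L : List (A × ℤ × A), (L.map fun p => p.1 * (α ^ p.2.1) e * p.2.2).sum = x := by
    intro x hx
    induction hx using TwoSidedIdeal.span_induction with
    | mem x h =>
      obtain ⟨k, rfl⟩ := h
      exact ⟨[(1, k, 1)], by simp⟩
    | zero => exact ⟨[], rfl⟩
    | add x y hx hy ihx ihy =>
      obtain ⟨L, rfl⟩ := ihx
      obtain ⟨L', rfl⟩ := ihy
      exact ⟨L ++ L', by rw [List.map_append, List.sum_append]⟩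
    | neg x hx ihx =>
      obtain ⟨L, rfl⟩ := ihx
      refine ⟨L.map fun p => (-p.1, p.2.1, p.2.2), ?_⟩
      rw [List.map_map]
      clear hx
      induction L with
      | nil => simp
      | cons a L ih =>
        rw [List.map_cons, List.sum_cons, List.map_cons, List.sum_cons, ih, neg_add]
        simp
    | left_absorb a x hx ihx =>
      obtain ⟨L, rfl⟩ := ihx
      refine ⟨L.map fun p => (a * p.1, p.2.1, p.2.2), ?_⟩
      rw [List.map_map, ← List.sum_map_mul_left]
      congr 1
      apply List.map_congr_left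
      intro p _
      simp only [Function.comp, mul_assoc]
    | right_absorb b x hx ihx =>
      obtain ⟨L, rfl⟩ := ihx
      refine ⟨L.map fun p => (p.1, p.2.1, p.2.2 * b), ?_⟩
      rw [List.map_map, ← List.sum_map_mul_right]
      congr 1
      apply List.map_congr_left
      intro p _
      simp only [Function.comp, mul_assoc]
  exact key 1 h1

end

section avg

variable {K A : Type} [Field K] [Ring A] [Algebra K A]

open Classical in
/-- the normalized rank on a subalgebra -/
noncomputable def nr (B' : Subalgebra K A) (x : A) : ℝ :=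
  if h : x ∈ B' then (rk K B' (⟨x, h⟩ : B') : ℝ) / finrank K B' else 0

theorem nr_mem (B' : Subalgebra K A) {x : A} (h : x ∈ B') :
    nr B' x = (rk K B' (⟨x, h⟩ : B') : ℝ) / finrank K B' := dif_pos h

theorem nr_nonneg (B' : Subalgebra K A) (x : A) : 0 ≤ nr B' x := by
  unfold nr
  split
  · positivity
  · exact le_rfl

theorem nr_le_one (B' : Subalgebra K A) [FiniteDimensional K B'] (x : A) : nr B' x ≤ 1 := by
  unfold nr
  split
  · apply div_le_one_of_le₀
    · have h1 : ∀ b : B', rk K B' b ≤ finrank K B' := fun b => Submodule.finrank_le _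
      exact_mod_cast h1 _
    · positivity
  · exact zero_le_one

theorem nr_add (B' : Subalgebra K A) [FiniteDimensional K B'] {e f : A} (he : e ∈ B')
    (hf : f ∈ B') (h1 : IsIdempotentElem e) (h2 : IsIdempotentElem f) (h3 : e * f = 0)
    (h4 : f * e = 0) : nr B' (e + f) = nr B' e + nr B' f := by
  rw [nr_mem B' he, nr_mem B' hf, nr_mem B' (B'.add_mem he hf), ← add_div]
  congr 1
  have h5 := rk_add K (V := B') (⟨e, he⟩ : B') ⟨f, hf⟩ (Subtype.ext h1) (Subtype.ext h2)
    (Subtype.ext h3) (Subtype.ext h4)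
  exact_mod_cast h5

theorem nr_swap (B' : Subalgebra K A) [FiniteDimensional K B'] {x y : A} (hx : x ∈ B')
    (hy : y ∈ B') (h1 : IsIdempotentElem (x * y)) (h2 : IsIdempotentElem (y * x)) :
    nr B' (x * y) = nr B' (y * x) := by
  rw [nr_mem B' (B'.mul_mem hx hy), nr_mem B' (B'.mul_mem hy hx)]
  congr 1
  have h5 := rk_swap K (V := B') (⟨x, hx⟩ : B') ⟨y, hy⟩ (Subtype.ext h1) (Subtype.ext h2)
  exact_mod_cast h5

theorem nr_list [Nontrivial A] (B' : Subalgebra K A) [FiniteDimensional K B'] {J : Type}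
    (L : List J) (x y z : J → A) (hx : ∀ p ∈ L, x p ∈ B') (hy : ∀ p ∈ L, y p ∈ B')
    (hz : ∀ p ∈ L, z p ∈ B') (h : (L.map fun p => x p * y p * z p).sum = 1) :
    1 ≤ (L.map fun p => nr B' (y p)).sum := by
  have hfr : (0 : ℝ) < finrank K B' := by
    have : Nontrivial B' := inferInstance
    exact_mod_cast finrank_pos
  have h1 := rk_sum_le K (V := B') (B := B') L.attach (fun p => ⟨x p.1, hx _ p.2⟩)
    (fun p => ⟨y p.1, hy _ p.2⟩) (fun p => ⟨z p.1, hz _ p.2⟩)
  have h2 : (L.attach.map fun p => ((⟨x p.1, hx _ p.2⟩ : B') * ⟨y p.1, hy _ p.2⟩ *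
      ⟨z p.1, hz _ p.2⟩)).sum = 1 := by
    apply Subtype.ext
    rw [← Subalgebra.coe_val, map_list_sum, List.map_map]
    have h3 : (L.attach.map fun p => x p.1 * y p.1 * z p.1).sum = 1 := by
      rw [← h]
      congr 1
      exact List.attach_map_val (f := fun p => x p * y p * z p)
    exact h3
  rw [h2, rk_one] at h1
  have h4 : (L.map fun p => nr B' (y p)).sum =
      ((L.attach.map fun p => rk K B' (⟨y p.1, hy _ p.2⟩ : B')).sum : ℕ) / (finrank K B' : ℝ) := by
    rw [Nat.cast_list_sum, List.map_map, ← List.attach_map_val (f := fun p => nr B' (y p)),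
      div_eq_mul_inv, ← List.sum_map_mul_right]
    congr 1
    apply List.map_congr_left
    intro p _
    rw [nr_mem B' (hy _ p.2), div_eq_mul_inv]
    rfl
  rw [h4, le_div_iff₀ hfr, one_mul]
  exact_mod_cast h1

end avg

end Pool.Agent.N24.LM
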